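import Pool.Agent.helper7.ZD.Spec

/-!
# Row zd:TDF (MP_baa4d7_al): the alternating sum for `d` is zero
-/

set_option autoImplicit false

namespace Pool.Agent.ND.NY

open Pool.Agent.helper58.DC Pool.Agent.DI Pool.Agent.GR Pool.Agent.OB Pool.Agent.DR Pool.Agent.FI Pool.Agent.FI3 Pool.Agent.FI4 Pool.Agent.FI4I Pool.Agent.LE Pool.Agent.L5 Pool.Agent.NAB
open Pool.Agent.ZB (Pm Om KZ EQ BQ lQ MZc BDK)

theorem TDF_comm {α β : Type} [Finite α] [Finite β] (S : Set α) (f : α → β → ℂ) :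
    ∑ᶠ a ∈ S, ∑ᶠ b, f a b = ∑ᶠ b, ∑ᶠ a ∈ S, f a b := by
  have := finsum_mem_comm f (Set.toFinite S) (Set.finite_univ (α := β))
  simpa only [finsum_mem_univ] using this

theorem TDF_cast {α : Type} [Finite α] (S : Set α) (f : α → ℤ) :
    ((∑ᶠ a ∈ S, f a : ℤ) : ℂ) = ∑ᶠ a ∈ S, (f a : ℂ) := by
  classical
  have hf : S.Finite := Set.toFinite S
  rw [finsum_mem_eq_finite_toFinset_sum _ hf, finsum_mem_eq_finite_toFinset_sum _ hf, Int.cast_sum]

open Classical in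
theorem TDF_count {α : Type} (S : Set α) (P : α → Prop) (hS : S.Finite) :
    ∑ᶠ a ∈ S, (if P a then (1 : ℂ) else 0) = (({a | a ∈ S ∧ P a}.ncard : ℕ) : ℂ) := by
  have h1 : {a | a ∈ S ∧ P a}.Finite := hS.subset fun a ha => ha.1
  rw [finsum_mem_eq_finite_toFinset_sum _ hS, Set.ncard_eq_toFinset_card _ h1, Finset.sum_ite, Finset.sum_const_zero, add_zero,
    Finset.sum_const, nsmul_eq_mul, mul_one]
  congr 2
  ext a
  simp

theorem TDF (hTDL : TDL_stmt) (hZTL : Pool.Agent.ZB.ZTL_stmt) (hZTP : Pool.Agent.ZB.ZTP_stmt) (hNTG : NTG_stmt) (hFT0 : FT0_stmt) (hFNO : FNO_stmt) (hZE1 : Pool.Agent.ZB.ZE1_stmt) (hB2 : B2_stmt) : TDF_stmt := by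
  classical
  intro p κ M hM G _ _ χ hχ D x hD hK hG d hN
  have : Fact p.Prime := ⟨hM.pr⟩
  obtain ⟨-, ⟨-, -, hEn, hEp, -⟩, -⟩ := hZE1 p hM.pr κ G D hK
  set g : Subgroup G → Subgroup G → ℤ := fun E' K => (Nat.card K : ℤ) *
    (({η : G → ℂ | η ∈ BQ p κ M (⊤ : Subgroup G) K E' χ ∧ Defect p K η d}.ncard : ℕ) : ℤ) with hg
  have hgF : ∀ E' K : Subgroup G, ((g E' K : ℤ) : ℂ) = (Nat.card K : ℂ) *
      ∑ᶠ η ∈ BQ p κ M (⊤ : Subgroup G) K E' χ, (if Defect p K η d then (1 : ℂ) else 0) := by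
    intro E' K
    rw [TDF_count _ _ ((hB2 G K).1.subset fun η hη => hη.1), hg]
    push_cast
    rfl
  have hne : ∀ E' K : Subgroup G, g E' K ≠ 0 → ∃ η, η ∈ BQ p κ M (⊤ : Subgroup G) K E' χ := by
    intro E' K h0
    by_contra h1
    apply h0
    have h2 : {η : G → ℂ | η ∈ BQ p κ M (⊤ : Subgroup G) K E' χ ∧ Defect p K η d} = ∅ := by
      rw [Set.eq_empty_iff_forall_notMem]
      exact fun η hη => h1 ⟨η, hη.1⟩
    rw [hg]
    simp only [h2, Set.ncard_empty, Nat.cast_zero, mul_zero]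
  have hle : ∀ E' K : Subgroup G, g E' K ≠ 0 → E' ≤ K := by
    intro E' K h0
    obtain ⟨η, h1, h2, Q, y, h3, h4, h5⟩ := hne E' K h0
    have he := hZE1 p hM.pr κ G Q h4
    rw [← h5]
    exact he.2.1.2.1.trans (h3.le.trans inf_le_left)
  have h1 : ((Nat.card G : ℤ) : ℂ) * ((altSum (trivE G) p M χ d ⊤ : ℤ) : ℂ) =
      ∑ᶠ C ∈ {C : Finset (Subgroup G) | NCh p ⊤ ⊥ C}, ∑ᶠ E' : Subgroup G, (-1 : ℂ) ^ (C.card + 1) * ((g E' (nrm C ⊓ nz E') : ℤ) : ℂ) := by
    rw [← Int.cast_mul, hFT0 G p M hG χ hχ d, TDF_cast]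
    refine finsum_mem_congr rfl fun C hC => ?_
    have h2 := hTDL p κ M hM G χ hχ D x hD hK (nrm C) d (hN (nrm C)) (hZTL p M hM G ⊥ C hC)
    rw [← mul_finsum]
    simp only [hgF]
    rw [← h2]
    push_cast
    rfl
  have h3 : ∀ E' : Subgroup G,
      ∑ᶠ C ∈ {C : Finset (Subgroup G) | NCh p ⊤ ⊥ C}, (-1 : ℂ) ^ (C.card + 1) * ((g E' (nrm C ⊓ nz E') : ℤ) : ℂ) = 0 := by
    intro E'
    by_cases hz : ∃ h : G, E' = cjS h (EQ p κ.s D)
    · obtain ⟨h, hh⟩ := hz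
      have hp : IsPGroup p E' := by
        rw [hh]
        exact hEp.map _
      have hnE : ¬ E' ≤ ⊥ := by
        intro h0
        apply hEn
        rw [eq_bot_iff]
        intro y hy
        have h6 : h * y * h⁻¹ ∈ E' := by
          rw [hh, mem_cjS]
          have h7 : h⁻¹ * (h * y * h⁻¹) * h = y := by group
          rw [h7]
          exact hy
        have h8 : h * y * h⁻¹ = 1 := Subgroup.mem_bot.1 (h0 h6)
        rw [Subgroup.mem_bot]
        have h9 : y = h⁻¹ * (h * y * h⁻¹) * h := by group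
        rw [h9, h8]
        group
      have h4 := hNTG G p ⊥ E' (fun K => ((g E' K : ℤ) : ℂ)) hp hnE
      have h5 := hFNO G p ⊤ ⊥ (nz E') (g E') IsPGroup.of_bot bot_le
      have h6 : ((cSum p (⊤ : Subgroup G) ⊥ (nz E') (g E') : ℤ) : ℂ) = 0 := by
        rw [← h4]
        unfold cSum
        rw [TDF_cast, finsum_mem_def, finsum_mem_def]
        refine finsum_congr fun C => ?_
        simp only [Set.indicator_apply, Set.mem_ofPred_eq]
        by_cases hP : PCh p ⊤ ⊥ C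
        · by_cases hE : E' ≤ nrm C
          · rw [if_pos hP, if_pos ⟨hP, hE⟩]
            push_cast
            rfl
          · rw [if_pos hP, if_neg (fun h => hE h.2)]
            have h7 : g E' (nz E' ⊓ nrm C) = 0 := by
              by_contra h8
              exact hE ((hle E' _ h8).trans inf_le_right)
            rw [h7, mul_zero, Int.cast_zero]
        · rw [if_neg hP, if_neg (fun h => hP h.1)]
      rw [h5, TDF_cast] at h6
      rw [← h6]
      refine finsum_mem_congr rfl fun C _ => ?_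
      rw [inf_comm]
      push_cast
      rfl
    · have h4 : ∀ C ∈ {C : Finset (Subgroup G) | NCh p ⊤ ⊥ C}, (-1 : ℂ) ^ (C.card + 1) * ((g E' (nrm C ⊓ nz E') : ℤ) : ℂ) = (fun _ => (0 : ℂ)) C := by
        intro C hC
        have h5 : g E' (nrm C ⊓ nz E') = 0 := by
          by_contra h0
          obtain ⟨η, hη⟩ := hne _ _ h0
          exact hz (hZTP p κ M hM G χ hχ D x hD hK (nrm C) (hZTL p M hM G ⊥ C hC) E' η hη)
        rw [h5, Int.cast_zero, mul_zero]
      rw [finsum_mem_congr rfl h4]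
      simp
  have h4 : ((Nat.card G : ℤ) : ℂ) * ((altSum (trivE G) p M χ d ⊤ : ℤ) : ℂ) = 0 := by
    rw [h1, TDF_comm, finsum_congr h3, finsum_zero]
  have h5 : ((Nat.card G : ℤ) : ℂ) ≠ 0 := by exact_mod_cast Nat.card_pos.ne'
  exact_mod_cast (mul_eq_zero.1 h4).resolve_left h5

end Pool.Agent.ND.NY
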